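import Mathlib

/-!
# MP_560fdc_co: the minimum step of a shift of finite type can be quadratic in the size of its
minimal synchronizing deterministic presentation

The vertices are `0, …, n-1` (`n ≥ 2`).  Let `{p_0,q_0}, …, {p_{N-1},q_{N-1}}`, `N = n(n-1)/2`, be
all the pairs of vertices.  For `i + 1 < N` the letter `a_i` labels the two edges `p_i → p_{i+1}`
and `q_i → q_{i+1}`, and for all vertices `u`, `v` the letter `b_{u,v}` labels the single edge
`u → v`.  The shift space has minimum step `N`, and its minimal presentation has `n` vertices.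
-/

set_option autoImplicit false

open Filter

namespace Pool.Agent.Results.MP_560fdc_co.QuadraticStep

section Definitions

variable {A V : Type*}

/-- The label sequences of the bi-infinite walks of the presentation with vertex set `V` and edge
set `E`; `(u, a, v) ∈ E` is an edge from `u` to `v` with the label `a`. -/
def shiftOf (E : Set (V × A × V)) : Set (ℤ → A) :=
  {z | ∃ w : ℤ → V, ∀ i, (w i, z i, w (i + 1)) ∈ E}

/-- There is a path from `u` to `v` labeled by the word. -/
def HasPath (E : Set (V × A × V)) : V → List A → V → Prop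
  | u, [], v => u = v
  | u, a :: l, v => ∃ x, (u, a, x) ∈ E ∧ HasPath E x l v

/-- The presentation is deterministic. -/
def IsDeterministic (E : Set (V × A × V)) : Prop :=
  ∀ u a v v', (u, a, v) ∈ E → (u, a, v') ∈ E → v = v'

/-- The word `l` synchronizes to the vertex `q`. -/
def SynchronizesTo (E : Set (V × A × V)) (l : List A) (q : V) : Prop :=
  (∃ u v, HasPath E u l v) ∧ ∀ u v, HasPath E u l v → v = q

/-- The presentation is a synchronizing deterministic presentation. -/
def IsSynchronizingDeterministic (E : Set (V × A × V)) : Prop :=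
  IsDeterministic E ∧ ∀ q, ∃ l, SynchronizesTo E l q

/-- The least number of vertices of a synchronizing deterministic presentation of `X`. -/
noncomputable def minSize (X : Set (ℤ → A)) : ℕ :=
  sInf {k | ∃ E : Set (Fin k × A × Fin k), IsSynchronizingDeterministic E ∧ shiftOf E = X}

/-- The word `z_i z_{i+1} … z_{i+k-1}`. -/
def window (z : ℤ → A) (i : ℤ) (k : ℕ) : List A := List.ofFn fun j : Fin k => z (i + (j : ℕ))

/-- `X` is `M`-step. -/
def IsStep (M : ℕ) (X : Set (ℤ → A)) : Prop :=
  ∃ F : Set (List A), (∀ l ∈ F, l.length = M + 1) ∧ X = {z | ∀ i, window z i (M + 1) ∉ F}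

/-- `X` is a shift of finite type. -/
def IsSFT (X : Set (ℤ → A)) : Prop := ∃ M, IsStep M X

/-- The minimum step of `X`. -/
noncomputable def minStep (X : Set (ℤ → A)) : ℕ := sInf {M | IsStep M X}

theorem window_zero (z : ℤ → A) (i : ℤ) : window z i 0 = [] := rfl

theorem window_succ (z : ℤ → A) (i : ℤ) (k : ℕ) :
    window z i (k + 1) = z i :: window z (i + 1) k := by
  unfold window
  rw [List.ofFn_succ]
  congr 1
  · simp
  · congr 1
    ext j
    congr 1
    push_cast [Fin.val_succ]
    ring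

theorem window_succ' (z : ℤ → A) (i : ℤ) (k : ℕ) :
    window z i (k + 1) = window z i k ++ [z (i + k)] := by
  induction k generalizing i with
  | zero => rw [window_succ, window_zero, window_zero]; simp
  | succ k ih =>
    rw [window_succ, ih, window_succ z i k, List.cons_append]
    congr 4
    push_cast
    ring

theorem window_length (z : ℤ → A) (i : ℤ) (k : ℕ) : (window z i k).length = k := by
  simp [window]

theorem window_congr {z z' : ℤ → A} {i : ℤ} {k : ℕ}
    (h : ∀ j : ℤ, i ≤ j → j < i + k → z j = z' j) : window z i k = window z' i k := by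
  unfold window
  congr 1
  ext j
  apply h
  · omega
  · have := j.2
    omega

theorem hasPath_append {E : Set (V × A × V)} {u v : V} {l l' : List A} :
    HasPath E u (l ++ l') v ↔ ∃ x, HasPath E u l x ∧ HasPath E x l' v := by
  induction l generalizing u with
  | nil => simp [HasPath]
  | cons a l ih =>
    simp only [List.cons_append, HasPath, ih]
    constructor
    · rintro ⟨x, hx, y, hy, hy'⟩
      exact ⟨y, ⟨x, hx, hy⟩, hy'⟩
    · rintro ⟨y, ⟨x, hx, hy⟩, hy'⟩
      exact ⟨x, hx, y, hy, hy'⟩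

theorem hasPath_window {E : Set (V × A × V)} {z : ℤ → A} {w : ℤ → V}
    (h : ∀ i, (w i, z i, w (i + 1)) ∈ E) (i : ℤ) (k : ℕ) :
    HasPath E (w i) (window z i k) (w (i + k)) := by
  induction k generalizing i with
  | zero => simp [window_zero, HasPath]
  | succ k ih =>
    rw [window_succ]
    refine ⟨w (i + 1), h i, ?_⟩
    have := ih (i + 1)
    rwa [show i + 1 + (k : ℤ) = i + ((k + 1 : ℕ) : ℤ) by push_cast; ring] at this

end Definitions

section Construction

variable (n : ℕ)

/-- The pairs of vertices. -/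
abbrev Pairs := {p : Fin n × Fin n // p.1 < p.2}

/-- The number of pairs of vertices. -/
def N : ℕ := Fintype.card (Pairs n)

/-- The alphabet. -/
abbrev Alph := Fin (N n) ⊕ (Fin n × Fin n)

/-- The enumeration of the pairs. -/
noncomputable def e : Fin (N n) ≃ Pairs n := (Fintype.equivFin _).symm

variable {n}

/-- The smaller element of the pair. -/
noncomputable def p (i : Fin (N n)) : Fin n := (e n i).1.1

/-- The larger element of the pair. -/
noncomputable def q (i : Fin (N n)) : Fin n := (e n i).1.2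

theorem p_lt_q (i : Fin (N n)) : p i < q i := (e n i).2

/-- `i` is the index of the pair `{u, v}`. -/
def IsPair (i : Fin (N n)) (u v : Fin n) : Prop := (u = p i ∧ v = q i) ∨ (u = q i ∧ v = p i)

theorem IsPair.unique {i j : Fin (N n)} {u v : Fin n} (h : IsPair i u v) (h' : IsPair j u v) :
    i = j := by
  have key : ∀ {i j : Fin (N n)}, p i = p j → q i = q j → i = j := by
    intro i j h1 h2
    apply (e n).injective
    exact Subtype.ext (Prod.ext h1 h2)
  have hi := p_lt_q i
  have hj := p_lt_q j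
  rcases h with ⟨h1, h2⟩ | ⟨h1, h2⟩ <;> rcases h' with ⟨h3, h4⟩ | ⟨h3, h4⟩
  · exact key (h1.symm.trans h3) (h2.symm.trans h4)
  · rw [← h1, ← h2] at hi
    rw [← h3, ← h4] at hj
    exact absurd hi hj.asymm
  · rw [← h1, ← h2] at hi
    rw [← h3, ← h4] at hj
    exact absurd hi hj.asymm
  · exact key (h2.symm.trans h4) (h1.symm.trans h3)

theorem exists_isPair {u v : Fin n} (h : u ≠ v) : ∃ i, IsPair i u v := by
  rcases lt_or_gt_of_ne h with h | h
  · exact ⟨(e n).symm ⟨(u, v), h⟩, Or.inl (by simp [p, q])⟩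
  · exact ⟨(e n).symm ⟨(v, u), h⟩, Or.inr (by simp [p, q])⟩

/-- The edges. -/
def E (n : ℕ) : Set (Fin n × Alph n × Fin n) :=
  {t | (∃ i j : Fin (N n), (j : ℕ) = i + 1 ∧ t.2.1 = Sum.inl i ∧
      ((t.1 = p i ∧ t.2.2 = p j) ∨ (t.1 = q i ∧ t.2.2 = q j))) ∨ t.2.1 = Sum.inr (t.1, t.2.2)}

theorem mem_E_inr {u v x y : Fin n} : (u, (Sum.inr (x, y) : Alph n), v) ∈ E n ↔ u = x ∧ v = y := by
  constructor
  · rintro (⟨i, j, -, h, -⟩ | h)
    · exact absurd h (by simp)
    · simp only [Sum.inr.injEq, Prod.mk.injEq] at h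
      exact ⟨h.1.symm, h.2.symm⟩
  · rintro ⟨rfl, rfl⟩
    exact Or.inr rfl

theorem mem_E_inl {u v : Fin n} {i : Fin (N n)} : (u, (Sum.inl i : Alph n), v) ∈ E n ↔
    ∃ j : Fin (N n), (j : ℕ) = i + 1 ∧ ((u = p i ∧ v = p j) ∨ (u = q i ∧ v = q j)) := by
  constructor
  · rintro (⟨i', j, hj, h, h'⟩ | h)
    · simp only [Sum.inl.injEq] at h
      subst h
      exact ⟨j, hj, h'⟩
    · exact absurd h (by simp)
  · rintro ⟨j, hj, h⟩
    exact Or.inl ⟨i, j, hj, rfl, h⟩

theorem isDeterministic_E : IsDeterministic (E n) := by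
  rintro u (i | ⟨x, y⟩) v v' h h'
  · rw [mem_E_inl] at h h'
    obtain ⟨j, hj, h⟩ := h
    obtain ⟨j', hj', h'⟩ := h'
    have hjj : j = j' := Fin.ext (by omega)
    subst hjj
    have hi := p_lt_q i
    rcases h with ⟨h1, h2⟩ | ⟨h1, h2⟩ <;> rcases h' with ⟨h3, h4⟩ | ⟨h3, h4⟩
    · rw [h2, h4]
    · rw [← h1, ← h3] at hi; exact absurd hi (lt_irrefl _)
    · rw [← h1, ← h3] at hi; exact absurd hi (lt_irrefl _)
    · rw [h2, h4]
  · rw [mem_E_inr] at h h'
    rw [h.2, h'.2]

theorem isSynchronizingDeterministic_E : IsSynchronizingDeterministic (E n) := by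
  refine ⟨isDeterministic_E, fun v => ⟨[Sum.inr (v, v)], ⟨v, v, v, mem_E_inr.2 ⟨rfl, rfl⟩, rfl⟩,
    ?_⟩⟩
  rintro u x ⟨y, h, rfl⟩
  exact (mem_E_inr.1 h).2

/-- Two paths with the same label and with different ends run through pairs with consecutive
indices. -/
theorem index_of_paths {l : List (Alph n)} {u v u' v' : Fin n} (h : HasPath (E n) u l v)
    (h' : HasPath (E n) u' l v') (hne : v ≠ v') :
    ∃ i j : Fin (N n), IsPair i u u' ∧ IsPair j v v' ∧ (j : ℕ) = i + l.length := by
  induction l generalizing u u' with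
  | nil =>
    obtain rfl : u = v := h
    obtain rfl : u' = v' := h'
    obtain ⟨i, hi⟩ := exists_isPair hne
    exact ⟨i, i, hi, hi, by simp⟩
  | cons a l ih =>
    obtain ⟨x, hx, h⟩ := h
    obtain ⟨x', hx', h'⟩ := h'
    obtain ⟨i, j, hi, hj, hij⟩ := ih h h'
    have hxx : x ≠ x' := by
      rintro rfl
      rcases hi with ⟨h1, h2⟩ | ⟨h1, h2⟩
      · exact absurd (p_lt_q i) (by rw [← h1, ← h2]; exact lt_irrefl _)
      · exact absurd (p_lt_q i) (by rw [← h1, ← h2]; exact lt_irrefl _)
    rcases a with k | ⟨y, y'⟩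
    · rw [mem_E_inl] at hx hx'
      obtain ⟨m, hm, hx⟩ := hx
      obtain ⟨m', hm', hx'⟩ := hx'
      have hmm : m = m' := Fin.ext (by omega)
      subst hmm
      rcases hx with ⟨h1, h2⟩ | ⟨h1, h2⟩ <;> rcases hx' with ⟨h3, h4⟩ | ⟨h3, h4⟩
      · exact absurd (h2.trans h4.symm) hxx
      · have : i = m := hi.unique (Or.inl ⟨h2, h4⟩)
        subst this
        exact ⟨k, j, Or.inl ⟨h1, h3⟩, hj, by simp only [List.length_cons]; omega⟩
      · have : i = m := hi.unique (Or.inr ⟨h2, h4⟩)
        subst this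
        exact ⟨k, j, Or.inr ⟨h1, h3⟩, hj, by simp only [List.length_cons]; omega⟩
      · exact absurd (h2.trans h4.symm) hxx
    · rw [mem_E_inr] at hx hx'
      exact absurd (hx.2.trans hx'.2.symm) hxx

theorem unique_end {l : List (Alph n)} (hl : N n ≤ l.length) {u v u' v' : Fin n}
    (h : HasPath (E n) u l v) (h' : HasPath (E n) u' l v') : v = v' := by
  by_contra hne
  obtain ⟨i, j, -, -, hij⟩ := index_of_paths h h' hne
  have := j.2
  omega

theorem isStep_N : IsStep (N n) (shiftOf (E n)) := by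
  refine ⟨{l | l.length = N n + 1 ∧ ∀ u v, ¬ HasPath (E n) u l v}, fun l hl => hl.1, ?_⟩
  ext z
  constructor
  · rintro ⟨w, hw⟩ i ⟨-, h⟩
    exact h _ _ (hasPath_window hw i _)
  · intro hz
    have key : ∀ i : ℤ, ∃ u x v, HasPath (E n) u (window z (i - N n) (N n)) x ∧
        (x, z i, v) ∈ E n ∧ ∃ u', HasPath (E n) u' (window z (i + 1 - N n) (N n)) v := by
      intro i
      have h1 := hz (i - N n)
      simp only [Set.mem_ofPred_eq, window_length, true_and, not_forall, not_not] at h1
      obtain ⟨u, v, huv⟩ := h1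
      have h2 := huv
      rw [window_succ', hasPath_append] at h2
      obtain ⟨x, hx, y, hy, rfl⟩ := h2
      rw [sub_add_cancel] at hy
      have h3 := huv
      rw [window_succ] at h3
      obtain ⟨u', -, hu'⟩ := h3
      refine ⟨u, x, y, hx, hy, u', ?_⟩
      rwa [show i + 1 - (N n : ℤ) = i - N n + 1 by ring]
    choose u x v hx hxv u' hu' using key
    refine ⟨x, fun i => ?_⟩
    have : v i = x (i + 1) := unique_end (by rw [window_length]) (hu' i) (hx (i + 1))
    rw [← this]
    exact hxv i

theorem minSize_eq : minSize (shiftOf (E n)) = n := by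
  apply le_antisymm
  · exact Nat.sInf_le ⟨E n, isSynchronizingDeterministic_E, rfl⟩
  · have hne : {k | ∃ E' : Set (Fin k × Alph n × Fin k), IsSynchronizingDeterministic E' ∧
        shiftOf E' = shiftOf (E n)}.Nonempty := ⟨n, E n, isSynchronizingDeterministic_E, rfl⟩
    obtain ⟨E', -, hE'⟩ := Nat.sInf_mem hne
    have hconst : ∀ v : Fin n, (fun _ : ℤ => (Sum.inr (v, v) : Alph n)) ∈ shiftOf E' := by
      intro v
      rw [hE']
      exact ⟨fun _ => v, fun _ => mem_E_inr.2 ⟨rfl, rfl⟩⟩
    choose w hw using hconst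
    have hinj : Function.Injective fun v => w v 0 := by
      intro v v' h
      simp only at h
      by_contra hne'
      have hmem : (fun i : ℤ => if i < 0 then (Sum.inr (v, v) : Alph n) else Sum.inr (v', v')) ∈
          shiftOf E' := by
        refine ⟨fun i => if i < 0 then w v i else w v' i, fun i => ?_⟩
        rcases lt_trichotomy i (-1) with hi | hi | hi
        · have h1 : i < 0 := by omega
          have h2 : i + 1 < 0 := by omega
          simp only [h1, h2, if_true]
          exact hw v i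
        · subst hi
          norm_num
          rw [← h]
          exact hw v (-1)
        · have h1 : ¬ i < 0 := by omega
          have h2 : ¬ i + 1 < 0 := by omega
          simp only [h1, h2, if_false]
          exact hw v' i
      rw [hE'] at hmem
      obtain ⟨x, hx⟩ := hmem
      have h1 := hx (-1)
      have h2 := hx 0
      norm_num [mem_E_inr] at h1 h2
      exact hne' (h1.2.symm.trans h2.1)
    have := Fintype.card_le_of_injective _ hinj
    rwa [Fintype.card_fin, Fintype.card_fin] at this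

/-- The labels of a walk which is at `o` before time `0` and after time `N - 1`, if `f` and `g`
are both `p`, or both `q`. -/
noncomputable def label (o : Fin n) (f g : Fin (N n) → Fin n) (i : ℤ) : Alph n :=
  if h : 0 ≤ i ∧ i + 1 < N n then Sum.inl ⟨i.toNat, by omega⟩
  else if h : i + 1 = 0 ∧ 0 < N n then Sum.inr (o, f ⟨0, h.2⟩)
  else if h : i + 1 = N n ∧ 0 < N n then Sum.inr (g ⟨N n - 1, by omega⟩, o)
  else Sum.inr (o, o)

/-- The walk. -/
noncomputable def walk (o : Fin n) (f : Fin (N n) → Fin n) (i : ℤ) : Fin n :=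
  if h : 0 ≤ i ∧ i < N n then f ⟨i.toNat, by omega⟩ else o

theorem label_mem (o : Fin n) (f : Fin (N n) → Fin n) (hN : 0 < N n)
    (hf : ∀ i j : Fin (N n), (j : ℕ) = i + 1 → (f i, (Sum.inl i : Alph n), f j) ∈ E n) :
    label o f f ∈ shiftOf (E n) := by
  refine ⟨walk o f, fun i => ?_⟩
  unfold label walk
  by_cases h1 : 0 ≤ i ∧ i + 1 < N n
  · have h2 : 0 ≤ i ∧ i < N n := by omega
    have h3 : 0 ≤ i + 1 ∧ i + 1 < N n := by omega
    rw [dif_pos h1, dif_pos h2, dif_pos h3]
    apply hf
    simp only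
    omega
  · rw [dif_neg h1]
    by_cases h2 : i + 1 = 0 ∧ 0 < N n
    · have h3 : ¬ (0 ≤ i ∧ i < N n) := by omega
      have h4 : 0 ≤ i + 1 ∧ i + 1 < N n := by omega
      rw [dif_pos h2, dif_neg h3, dif_pos h4, mem_E_inr]
      refine ⟨rfl, ?_⟩
      congr 2
      omega
    · rw [dif_neg h2]
      by_cases h3 : i + 1 = N n ∧ 0 < N n
      · have h4 : 0 ≤ i ∧ i < N n := by omega
        have h5 : ¬ (0 ≤ i + 1 ∧ i + 1 < N n) := by omega
        rw [dif_pos h3, dif_pos h4, dif_neg h5, mem_E_inr]
        refine ⟨?_, rfl⟩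
        congr 2
        omega
      · have h4 : ¬ (0 ≤ i ∧ i < N n) := by omega
        have h5 : ¬ (0 ≤ i + 1 ∧ i + 1 < N n) := by omega
        rw [dif_neg h3, dif_neg h4, dif_neg h5, mem_E_inr]
        exact ⟨rfl, rfl⟩

theorem label_notMem (o : Fin n) (hN : 0 < N n) : label o q p ∉ shiftOf (E n) := by
  rintro ⟨w, hw⟩
  have key : ∀ i : ℕ, (h : i < N n) → w i = q ⟨i, h⟩ := by
    intro i
    induction i with
    | zero =>
      intro h
      have h1 := hw (-1)
      have h2 : ¬ (0 ≤ (-1 : ℤ) ∧ (-1 : ℤ) + 1 < N n) := by omega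
      have h3 : (-1 : ℤ) + 1 = 0 ∧ 0 < N n := ⟨by norm_num, hN⟩
      rw [label, dif_neg h2, dif_pos h3, mem_E_inr] at h1
      exact h1.2
    | succ i ih =>
      intro h
      have h1 := hw i
      have h2 : 0 ≤ (i : ℤ) ∧ (i : ℤ) + 1 < N n := by omega
      rw [label, dif_pos h2, mem_E_inl] at h1
      obtain ⟨j, hj, h1⟩ := h1
      have h3 := ih (by omega)
      rcases h1 with ⟨h4, h5⟩ | ⟨h4, h5⟩
      · rw [h3] at h4
        have := p_lt_q (⟨i, by omega⟩ : Fin (N n))
        rw [h4] at this
        simp at this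
      · have h6 : ((i + 1 : ℕ) : ℤ) = i + 1 := by push_cast; rfl
        rw [h6, h5]
        congr 1
        ext
        simp only [Int.toNat_natCast] at hj
        exact hj
  have h1 := hw (N n - 1 : ℕ)
  have h2 : ¬ (0 ≤ ((N n - 1 : ℕ) : ℤ) ∧ ((N n - 1 : ℕ) : ℤ) + 1 < N n) := by omega
  have h3 : ¬ (((N n - 1 : ℕ) : ℤ) + 1 = 0 ∧ 0 < N n) := by omega
  have h4 : ((N n - 1 : ℕ) : ℤ) + 1 = N n ∧ 0 < N n := by omega
  rw [label, dif_neg h2, dif_neg h3, dif_pos h4, mem_E_inr, key (N n - 1) (by omega)] at h1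
  exact absurd h1.1 (p_lt_q _).ne'

theorem label_congr_left (o : Fin n) (f g g' : Fin (N n) → Fin n) {i : ℤ} (hi : i + 1 < N n) :
    label o f g i = label o f g' i := by
  unfold label
  have : ¬ (i + 1 = N n ∧ 0 < N n) := by omega
  rw [dif_neg this, dif_neg this]

theorem label_congr_right (o : Fin n) (f f' g : Fin (N n) → Fin n) {i : ℤ} (hi : 0 ≤ i) :
    label o f g i = label o f' g i := by
  unfold label
  have : ¬ (i + 1 = 0 ∧ 0 < N n) := by omega
  rw [dif_neg this, dif_neg this]

theorem not_isStep (hn : 0 < n) {M : ℕ} (hM : M < N n) : ¬ IsStep M (shiftOf (E n)) := by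
  rintro ⟨F, -, hF⟩
  have hN : 0 < N n := by omega
  set o : Fin n := ⟨0, hn⟩
  have hp : label o p p ∈ shiftOf (E n) := label_mem o p hN fun i j hij =>
    mem_E_inl.2 ⟨j, hij, Or.inl ⟨rfl, rfl⟩⟩
  have hq : label o q q ∈ shiftOf (E n) := label_mem o q hN fun i j hij =>
    mem_E_inl.2 ⟨j, hij, Or.inr ⟨rfl, rfl⟩⟩
  apply label_notMem o hN
  rw [hF] at hp hq ⊢
  intro i
  by_cases h : 0 ≤ i
  · rw [window_congr (z' := label o p p)]
    · exact hp i
    · intro j h1 _
      exact label_congr_right o q p p (by omega)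
  · rw [window_congr (z' := label o q q)]
    · exact hq i
    · intro j _ h2
      exact label_congr_left o q p q (by push_cast at h2; omega)

theorem minStep_eq (hn : 0 < n) : minStep (shiftOf (E n)) = N n := by
  apply le_antisymm
  · exact Nat.sInf_le isStep_N
  · have hne : {M | IsStep M (shiftOf (E n))}.Nonempty := ⟨N n, isStep_N⟩
    have h1 : IsStep (minStep (shiftOf (E n))) (shiftOf (E n)) := Nat.sInf_mem hne
    by_contra h
    exact not_isStep hn (not_le.1 h) h1

end Construction

theorem N_eq (n : ℕ) : N n = n.choose 2 := by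
  unfold N
  rw [Fintype.card_subtype, ← Finset.univ_product_univ, Finset.card_product_filter_lt,
    Finset.card_univ, Fintype.card_fin]

/-- **Theorem.** There are a constant `c > 0` and shifts of finite type `X_0, X_1, …` whose minimal
synchronizing deterministic presentations have more and more vertices, with
`m(X_k) ≥ c s(X_k)²` for all `k`. -/
theorem result : ∃ c : ℝ, 0 < c ∧ ∃ (A : ℕ → Type) (_ : ∀ k, Finite (A k))
    (X : ∀ k, Set (ℤ → A k)), (∀ k, IsSFT (X k)) ∧
    Tendsto (fun k => minSize (X k)) atTop atTop ∧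
    ∀ k, c * (minSize (X k) : ℝ) ^ 2 ≤ minStep (X k) := by
  refine ⟨1 / 4, by norm_num, fun k => Alph (k + 2), fun k => inferInstance,
    fun k => shiftOf (E (k + 2)), fun k => ⟨_, isStep_N⟩, ?_, ?_⟩
  · simp only [fun k : ℕ => minSize_eq (n := k + 2)]
    exact tendsto_add_atTop_nat 2
  · intro k
    rw [minSize_eq, minStep_eq (by omega), N_eq, Nat.cast_choose_two]
    push_cast
    nlinarith [(Nat.cast_nonneg k : (0 : ℝ) ≤ k)]

end Pool.Agent.Results.MP_560fdc_co.QuadraticStep
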